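import Pool.Agent.H52.XR2.S1

/-!
# XR2, rows INB and BDD
-/

set_option autoImplicit false

open MeasureTheory Set Filter Topology Metric
open scoped Real ENNReal

namespace Pool.XR2

open Pool.Agent.H45.XR

namespace Inb78

/-- Area of the part of a bounded set in a strip. -/
theorem strip {C : Set ℂ} (hc : IsCompact C) {R : ℝ} (hR : 0 ≤ R) (hCR : C ⊆ closedBall 0 R)
    (φ : ℝ) {a b : ℝ} (hab : a ≤ b) :
    (volume (C ∩ {z | tc φ z ∈ Icc a b})).toReal ≤ 2 * R * (b - a) := by
  have h1 : volume (C ∩ {z | tc φ z ∈ Icc a b}) ≤ ENNReal.ofReal (2 * R * (b - a)) := by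
    rw [vol_slice hc φ measurableSet_Icc, lintegral_indicator measurableSet_Icc]
    have h2 : ∀ t : ℝ, volume {s : ℝ | (t : ℂ) * (Complex.I * e φ) + s * e φ ∈ C} ≤
        ENNReal.ofReal (2 * R) := by
      intro t
      have h3 : {s : ℝ | (t : ℂ) * (Complex.I * e φ) + s * e φ ∈ C} ⊆ Icc (-R) R := by
        intro s hs
        have h4 := hCR hs
        rw [mem_closedBall, dist_zero_right] at h4
        have h5 : yc φ ((t : ℂ) * (Complex.I * e φ) + s * e φ) = s := by
          have h6 : yc φ (Complex.I * e φ) = 0 := by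
            simp only [yc, Complex.mul_re, Complex.mul_im, Complex.I_re, Complex.I_im, e_re, e_im]
            ring
          rw [yc_add, yc_mul, yc_mul, yc_e_self, h6]; ring
        have h6 : ∀ z : ℂ, |yc φ z| ≤ ‖z‖ := by
          intro z
          apply abs_le_of_sq_le_sq _ (norm_nonneg z)
          have h7 : ‖z‖ ^ 2 = z.re ^ 2 + z.im ^ 2 := by
            rw [← Complex.normSq_eq_norm_sq, Complex.normSq_apply]; ring
          have h8 := Real.sin_sq_add_cos_sq φ
          rw [h7]
          unfold yc
          nlinarith [sq_nonneg (Real.sin φ * z.re - Real.cos φ * z.im)]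
        have h7 := h6 ((t : ℂ) * (Complex.I * e φ) + s * e φ)
        rw [h5] at h7
        exact abs_le.1 (h7.trans h4)
      calc volume {s : ℝ | (t : ℂ) * (Complex.I * e φ) + s * e φ ∈ C}
          ≤ volume (Icc (-R) R) := measure_mono h3
        _ = ENNReal.ofReal (2 * R) := by rw [Real.volume_Icc]; congr 1; ring
    calc ∫⁻ t in Icc a b, volume {s : ℝ | (t : ℂ) * (Complex.I * e φ) + s * e φ ∈ C}
        ≤ ∫⁻ _ in Icc a b, ENNReal.ofReal (2 * R) := lintegral_mono h2
      _ = ENNReal.ofReal (2 * R * (b - a)) := by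
          rw [lintegral_const, Measure.restrict_apply MeasurableSet.univ, univ_inter,
            Real.volume_Icc, ← ENNReal.ofReal_mul (by positivity)]
  exact ENNReal.toReal_le_of_le_ofReal (mul_nonneg (by positivity) (by linarith)) h1

theorem abs_tc_le (φ : ℝ) (z : ℂ) : |tc φ z| ≤ ‖z‖ := by
  apply abs_le_of_sq_le_sq _ (norm_nonneg z)
  have h7 : ‖z‖ ^ 2 = z.re ^ 2 + z.im ^ 2 := by
    rw [← Complex.normSq_eq_norm_sq, Complex.normSq_apply]; ring
  have h8 := Real.sin_sq_add_cos_sq φ
  rw [h7]
  unfold tc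
  nlinarith [sq_nonneg (Real.sin φ * z.im + Real.cos φ * z.re)]

/-- The support function is bounded below. -/
theorem supp {C : Set ℂ} (hc : IsCompact C) {R V : ℝ} (hR : 0 < R) (hV : 0 < V)
    (hCR : C ⊆ closedBall 0 R) (hCV : ENNReal.ofReal V ≤ volume C) (h0 : ∫ z in C, z = 0)
    (φ : ℝ) {h : ℝ} (hh : ∀ z ∈ C, tc φ z ≤ h) :
    3 * V / 4 ≤ h * (2 * R + 32 * R ^ 3 / V) := by
  have hvfin : volume C ≠ ⊤ := hc.measure_lt_top.ne
  have hVr : V ≤ (volume C).toReal := (ENNReal.ofReal_le_iff_le_toReal hvfin).1 hCV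
  have hall : C ∩ {z | tc φ z ∈ Icc (-R) R} = C := by
    apply inter_eq_left.2
    intro z hz
    have h1 := hCR hz
    rw [mem_closedBall, dist_zero_right] at h1
    exact abs_le.1 ((abs_tc_le φ z).trans h1)
  have hV4 : (volume C).toReal ≤ 4 * R ^ 2 := by
    have h1 := strip hc hR.le hCR φ (by linarith : -R ≤ R)
    rw [hall] at h1
    nlinarith
  set s : ℝ := V / (8 * R) with hs
  have hs0 : 0 < s := by positivity
  have hint : IntegrableOn (fun z => tc φ z) C volume :=
    (continuous_tc φ).continuousOn.integrableOn_compact hc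
  have hI : ∫ z in C, tc φ z = 0 := by
    rw [integral_tc hc, h0, tc_zero]
  -- `h` is nonnegative
  have hne : C.Nonempty := by
    by_contra hn
    rw [not_nonempty_iff_eq_empty] at hn
    rw [hn, measure_empty, ENNReal.toReal_zero] at hVr
    linarith
  have hh0 : 0 ≤ h := by
    by_contra hneg
    rw [not_le] at hneg
    have h1 : ∫ z in C, tc φ z ≤ ∫ _ in C, h :=
      setIntegral_mono_on hint (integrableOn_const hvfin) hc.measurableSet hh
    rw [hI, setIntegral_const, smul_eq_mul] at h1
    have h2 : volume.real C = (volume C).toReal := rfl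
    rw [h2] at h1
    nlinarith
  set A : Set ℂ := C ∩ {z | tc φ z ∈ Icc (-s) h} with hA
  set B : Set ℂ := C ∩ {z | tc φ z < -s} with hB
  have hmA : MeasurableSet A := hc.measurableSet.inter
    (measurableSet_Icc.preimage (continuous_tc φ).measurable)
  have hmB : MeasurableSet B := hc.measurableSet.inter
    (measurableSet_Iio.preimage (continuous_tc φ).measurable)
  have hAB : A ∪ B = C := by
    ext z
    constructor
    · rintro (⟨hz, -⟩ | ⟨hz, -⟩) <;> exact hz
    · intro hz
      rcases lt_or_ge (tc φ z) (-s) with h1 | h1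
      · exact Or.inr ⟨hz, h1⟩
      · exact Or.inl ⟨hz, h1, hh z hz⟩
  have hdis : Disjoint A B := by
    rw [disjoint_left]
    rintro z ⟨-, h1, -⟩ ⟨-, h2⟩
    exact absurd h1 (not_le.2 h2)
  have hAfin : volume A ≠ ⊤ := (measure_mono inter_subset_left).trans_lt hc.measure_lt_top |>.ne
  have hBfin : volume B ≠ ⊤ := (measure_mono inter_subset_left).trans_lt hc.measure_lt_top |>.ne
  have hsum : (volume C).toReal = (volume A).toReal + (volume B).toReal := by
    rw [← hAB, measure_union hdis hmB, ENNReal.toReal_add hAfin hBfin]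
  have hAle : (volume A).toReal ≤ 2 * R * (h + s) := by
    have h1 := strip hc hR.le hCR φ (by linarith : -s ≤ h)
    have h2 : h - -s = h + s := by ring
    rw [h2] at h1
    exact h1
  have hIs : 0 ≤ h * (volume A).toReal - s * (volume B).toReal := by
    have h1 : ∫ z in C, tc φ z = (∫ z in A, tc φ z) + ∫ z in B, tc φ z := by
      rw [← hAB]
      exact setIntegral_union hdis hmB (hint.mono_set inter_subset_left)
        (hint.mono_set inter_subset_left)
    have h2 : ∫ z in A, tc φ z ≤ ∫ _ in A, h :=
      setIntegral_mono_on (hint.mono_set inter_subset_left) (integrableOn_const hAfin) hmA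
        (fun z hz => hh z hz.1)
    have h3 : ∫ z in B, tc φ z ≤ ∫ _ in B, (-s) :=
      setIntegral_mono_on (hint.mono_set inter_subset_left) (integrableOn_const hBfin) hmB
        (fun z hz => le_of_lt hz.2)
    rw [setIntegral_const, smul_eq_mul] at h2 h3
    have h4 : volume.real A = (volume A).toReal := rfl
    have h5 : volume.real B = (volume B).toReal := rfl
    rw [h4] at h2
    rw [h5] at h3
    rw [hI] at h1
    nlinarith
  have hAC : (volume A).toReal ≤ 4 * R ^ 2 := by
    have : (0 : ℝ) ≤ (volume B).toReal := ENNReal.toReal_nonneg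
    linarith
  -- conclusion
  have h1 : s * (volume B).toReal ≤ h * (4 * R ^ 2) := by
    have := mul_le_mul_of_nonneg_left hAC hh0
    linarith
  have h2 : (volume B).toReal ≤ h * (32 * R ^ 3 / V) := by
    have h3 : (volume B).toReal = s * (volume B).toReal / s := by field_simp
    rw [h3, div_le_iff₀ hs0]
    have h4 : h * (32 * R ^ 3 / V) * s = h * (4 * R ^ 2) := by
      rw [hs]; field_simp; ring
    rw [h4]; exact h1
  have h3 : 2 * R * s = V / 4 := by rw [hs]; field_simp; ring
  nlinarith

end Inb78

open Inb78 in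
theorem t_inb : INBStmt := by
  intro R₀ V hV
  set R : ℝ := max R₀ 1 with hRdef
  have hR : 0 < R := lt_of_lt_of_le one_pos (le_max_right _ _)
  have hM : 0 < 2 * R + 32 * R ^ 3 / V := by positivity
  refine ⟨3 * V / 4 / (2 * R + 32 * R ^ 3 / V), by positivity, ?_⟩
  set r : ℝ := 3 * V / 4 / (2 * R + 32 * R ^ 3 / V) with hr
  intro C hconv hc hC0 hCV hI
  have hCR : C ⊆ closedBall 0 R := hC0.trans (closedBall_subset_closedBall (le_max_left _ _))
  have hr0 : 0 < r := by positivity
  have hin : ball (0 : ℂ) r ⊆ C := by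
    intro z hz
    by_contra hzC
    obtain ⟨f, u, hfu, hfz⟩ := geometric_hahn_banach_closed_point hconv hc.isClosed hzC
    -- the functional is a multiple of `tc φ`
    set w : ℂ := ⟨f 1, f Complex.I⟩ with hw
    have hf : ∀ x : ℂ, f x = x.re * w.re + x.im * w.im := by
      intro x
      have h1 : x = x.re • (1 : ℂ) + x.im • Complex.I := by
        apply Complex.ext <;> simp
      conv_lhs => rw [h1]
      rw [map_add, map_smul, map_smul, smul_eq_mul, smul_eq_mul]
    have hw0 : w ≠ 0 := by
      intro h0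
      have h1 : ∀ x, f x = 0 := fun x => by rw [hf, h0]; simp
      rw [h1] at hfz
      have hne : C.Nonempty := by
        by_contra hn
        rw [not_nonempty_iff_eq_empty] at hn
        rw [hn, measure_empty] at hCV
        simp at hCV
        linarith
      obtain ⟨y, hy⟩ := hne
      have := hfu y hy
      rw [h1] at this
      linarith
    set φ : ℝ := Complex.arg w - π / 2 with hφ
    have hn : 0 < ‖w‖ := norm_pos_iff.2 hw0
    have hfx : ∀ x : ℂ, f x = ‖w‖ * tc φ x := by
      intro x
      rw [hf]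
      unfold tc
      have hc1 : Real.cos φ = Real.sin (Complex.arg w) := by
        rw [hφ, Real.cos_sub_pi_div_two]
      have hc2 : Real.sin φ = - Real.cos (Complex.arg w) := by
        rw [hφ, Real.sin_sub_pi_div_two]
      rw [hc1, hc2, Complex.sin_arg, Complex.cos_arg hw0]
      field_simp
      ring
    have h1 : ∀ y ∈ C, tc φ y ≤ tc φ z := by
      intro y hy
      have h2 := (hfu y hy).trans hfz
      rw [hfx, hfx] at h2
      exact (lt_of_mul_lt_mul_left h2 hn.le).le
    have h2 := supp hc hR hV hCR hCV hI φ h1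
    have h3 : tc φ z < r := by
      have h4 : ‖z‖ < r := by simpa using hz
      exact lt_of_le_of_lt ((le_abs_self _).trans (abs_tc_le φ z)) h4
    have h4 : r * (2 * R + 32 * R ^ 3 / V) = 3 * V / 4 := by
      rw [hr]; field_simp
    nlinarith
  refine ⟨⟨hconv, hc, ?_⟩, hin, hC0⟩
  rw [mem_interior]
  exact ⟨ball 0 r, hin, isOpen_ball, mem_ball_self hr0⟩

end Pool.XR2
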