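import Pool.Agent.H78.XR2.INB

/-!
# XR2, row BDD: mates are bounded
-/

set_option autoImplicit false

open MeasureTheory Set Filter Topology Metric
open scoped Real ENNReal

namespace Pool.XR2

open Pool.Agent.H45.XR

open Inb78 in
theorem bdd_level {C C' : Set ℂ} {R φ : ℝ} (hC : C ⊆ closedBall 0 R) (hC' : Body C')
    (hX : SameX C C' φ) : ∀ z ∈ C', |tc φ z| ≤ R := by
  have h1 : ∀ z ∈ interior C', |tc φ z| ≤ R := by
    intro z hz
    have h2 := B3.xray_pos (φ := φ) hz
    rw [← hX z] at h2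
    have h3 : {s : ℝ | z + s * e φ ∈ C}.Nonempty := by
      by_contra hn
      rw [not_nonempty_iff_eq_empty] at hn
      rw [hn, measure_empty] at h2
      exact lt_irrefl _ h2
    obtain ⟨s, hs⟩ := h3
    have h4 := hC hs
    rw [mem_closedBall, dist_zero_right] at h4
    have h5 := (abs_tc_le φ (z + s * e φ)).trans h4
    rwa [tc_add, tc_mul, tc_e_self, mul_zero, add_zero] at h5
  intro z hz
  have h2 : z ∈ closure (interior C') := by
    rw [hC'.conv.closure_interior_eq_closure_of_nonempty_interior ⟨0, hC'.zero⟩]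
    exact subset_closure hz
  have h3 : IsClosed {z | |tc φ z| ≤ R} := isClosed_le (continuous_tc φ).abs continuous_const
  exact (closure_minimal h1 h3) h2

open Inb78 in
theorem t_bdd (hinb : INBStmt) : BDDStmt := by
  intro r R δ hr hδ
  by_cases hδ2 : δ ≤ π / 2
  swap
  · refine ⟨1, one_pos, 1, one_pos, ?_⟩
    intro C C' φ₀ φ₁ _ _ h1 h2 _
    exact absurd (by linarith : δ ≤ π / 2) hδ2
  have hsin : 0 < Real.sin δ := Real.sin_pos_of_pos_of_lt_pi hδ (by linarith [Real.pi_pos])
  set R' : ℝ := |R| + 2 * |R| / Real.sin δ + 1 with hR'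
  have hR'0 : 0 < R' := by positivity
  obtain ⟨r', hr', hI⟩ := hinb R' (π * r ^ 2) (by positivity)
  refine ⟨r', hr', R', hR'0, ?_⟩
  intro C C' φ₀ φ₁ hC hP h1 h2 h0
  have hb := hP.b'
  have l0 := bdd_level hC.out hb hP.x0
  have l1 := bdd_level hC.out hb hP.x1
  apply hI C' hb.conv hb.cpt
  · intro z hz
    rw [mem_closedBall, dist_zero_right]
    have a0 := l0 z hz
    have a1 := l1 z hz
    have hrot : tc φ₁ z = Real.cos (φ₁ - φ₀) * tc φ₀ z - Real.sin (φ₁ - φ₀) * yc φ₀ z := by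
      unfold tc yc
      rw [Real.cos_sub, Real.sin_sub]
      have h := Real.sin_sq_add_cos_sq φ₀
      have hs : Real.sin φ₀ ^ 2 = 1 - Real.cos φ₀ ^ 2 := by linarith
      ring_nf
      rw [hs]
      ring
    have hsD : Real.sin δ ≤ Real.sin (φ₁ - φ₀) := by
      rcases le_total (φ₁ - φ₀) (π / 2) with h | h
      · exact Real.sin_le_sin_of_le_of_le_pi_div_two (by linarith) h h1
      · rw [← Real.sin_pi_sub (φ₁ - φ₀)]
        exact Real.sin_le_sin_of_le_of_le_pi_div_two (by linarith) (by linarith) (by linarith)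
    have hcos : |Real.cos (φ₁ - φ₀)| ≤ 1 := Real.abs_cos_le_one _
    have hRabs : R ≤ |R| := le_abs_self R
    have hy : |yc φ₀ z| ≤ 2 * |R| / Real.sin δ := by
      rw [le_div_iff₀ hsin]
      have e1 : Real.sin (φ₁ - φ₀) * yc φ₀ z = Real.cos (φ₁ - φ₀) * tc φ₀ z - tc φ₁ z := by
        linarith
      have e2 : |Real.sin (φ₁ - φ₀) * yc φ₀ z| ≤ 2 * |R| := by
        rw [e1]
        calc |Real.cos (φ₁ - φ₀) * tc φ₀ z - tc φ₁ z|
            ≤ |Real.cos (φ₁ - φ₀) * tc φ₀ z| + |tc φ₁ z| := abs_sub _ _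
          _ ≤ 1 * |tc φ₀ z| + |tc φ₁ z| := by
              rw [abs_mul]
              have := mul_le_mul_of_nonneg_right hcos (abs_nonneg (tc φ₀ z))
              linarith
          _ ≤ 2 * |R| := by linarith
      rw [abs_mul, abs_of_pos (lt_of_lt_of_le hsin hsD)] at e2
      have e3 := mul_le_mul_of_nonneg_right hsD (abs_nonneg (yc φ₀ z))
      linarith
    have hz1 := decomp φ₀ z
    have hn : ‖z‖ ≤ |yc φ₀ z| + |tc φ₀ z| := by
      conv_lhs => rw [hz1]
      refine (norm_add_le _ _).trans ?_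
      rw [norm_mul, norm_mul, norm_mul, norm_e, Complex.norm_I, Complex.norm_real,
        Complex.norm_real, Real.norm_eq_abs, Real.norm_eq_abs]
      linarith
    rw [hR']
    linarith
  · rw [← sameX_volume hC.body.cpt hb.cpt hP.x0]
    have h3 : volume (ball (0 : ℂ) r) ≤ volume C := measure_mono hC.inn
    rw [Complex.volume_ball] at h3
    refine le_trans (le_of_eq ?_) h3
    rw [ENNReal.ofReal_mul Real.pi_pos.le, ENNReal.ofReal_pow hr.le, mul_comm]
    congr 1
    rw [← NNReal.coe_real_pi, ENNReal.ofReal_coe_nnreal]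
  · rw [← sameX_integral hC.body.cpt hb.cpt hP.h01 hP.h10 hP.x0 hP.x1]
    exact h0

end Pool.XR2
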