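import Pool.Agent.H78.XR2.Gau

/-!
# XR2, row CPT: compactness of the set of planar bodies between two balls
-/

set_option autoImplicit false

open MeasureTheory Set Filter Topology Metric
open scoped Real ENNReal

namespace Pool.XR2

open Pool.Agent.H45.XR

namespace Cpt78

/-- A sublinear function between two multiples of the norm is a gauge. -/
theorem body_of {G : ℂ → ℝ} {r R : ℝ} (hr : 0 < r) (hR : 0 < R)
    (h1 : ∀ z, ‖z‖ / R ≤ G z) (h2 : ∀ z, G z ≤ ‖z‖ / r) (h3 : ∀ z w, G (z + w) ≤ G z + G w)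
    (h4 : ∀ (s : ℝ) z, 0 ≤ s → G (s • z) = s * G z) :
    Bd r R {z | G z ≤ 1} ∧ ∀ z, gauge {z | G z ≤ 1} z = G z := by
  have hlip : ∀ z w, G z - G w ≤ ‖z - w‖ / r := by
    intro z w
    have h5 := h3 w (z - w)
    rw [add_sub_cancel] at h5
    have h6 := h2 (z - w)
    linarith
  have hcont : Continuous G := by
    rw [Metric.continuous_iff]
    intro z ε hε
    refine ⟨ε * r, by positivity, fun w hw => ?_⟩
    rw [dist_eq_norm] at hw
    rw [Real.dist_eq, abs_lt]
    have h5 := hlip w z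
    have h6 := hlip z w
    have h7 : ‖z - w‖ = ‖w - z‖ := norm_sub_rev _ _
    have h8 : ‖w - z‖ / r < ε := by rw [div_lt_iff₀ hr]; exact hw
    rw [h7] at h6
    constructor <;> linarith
  have hconv : Convex ℝ {z | G z ≤ 1} := by
    intro z hz w hw a b ha hb hab
    have h5 := h3 (a • z) (b • w)
    rw [h4 a z ha, h4 b w hb] at h5
    have hz' : G z ≤ 1 := hz
    have hw' : G w ≤ 1 := hw
    show G (a • z + b • w) ≤ 1
    nlinarith
  have hout : {z | G z ≤ 1} ⊆ closedBall (0 : ℂ) R := by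
    intro z hz
    have hz' : G z ≤ 1 := hz
    have h5 := (h1 z).trans hz'
    rw [div_le_one hR] at h5
    simpa using h5
  have hin : ball (0 : ℂ) r ⊆ {z | G z ≤ 1} := by
    intro z hz
    have h5 : ‖z‖ < r := by simpa using hz
    have h6 : ‖z‖ / r < 1 := by rw [div_lt_one hr]; exact h5
    exact ((h2 z).trans h6.le)
  have hbody : Body {z | G z ≤ 1} := by
    refine ⟨hconv, ?_, ?_⟩
    · apply Metric.isCompact_of_isClosed_isBounded
      · exact isClosed_le hcont continuous_const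
      · exact isBounded_closedBall.subset hout
    · rw [mem_interior]
      exact ⟨ball 0 r, hin, isOpen_ball, mem_ball_self hr⟩
  refine ⟨⟨hbody, hin, hout⟩, fun z => ?_⟩
  have hG0 : G 0 = 0 := by
    have := h4 0 0 le_rfl
    simpa using this
  apply le_antisymm
  · by_cases hz : z = 0
    · rw [hz, gauge_zero, hG0]
    · have h5 : 0 < G z := lt_of_lt_of_le (div_pos (norm_pos_iff.2 hz) hR) (h1 z)
      apply gauge_le_of_mem h5.le
      refine ⟨(G z)⁻¹ • z, ?_, ?_⟩
      · show G ((G z)⁻¹ • z) ≤ 1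
        rw [h4 _ _ (inv_nonneg.2 h5.le), inv_mul_cancel₀ h5.ne']
      · show G z • ((G z)⁻¹ • z) = z
        rw [smul_smul, mul_inv_cancel₀ h5.ne', one_smul]
  · by_contra hc
    rw [not_le] at hc
    obtain ⟨b, hb, hb', w, hw, hwz⟩ := exists_lt_of_gauge_lt
      (absorbent_nhds_zero hbody.nhds) hc
    have hw' : G w ≤ 1 := hw
    have hwz' : b • w = z := hwz
    have h5 := h4 b w hb.le
    rw [hwz'] at h5
    nlinarith

end Cpt78

open Cpt78 G78 in
theorem t_cpt : CPTStmt := by
  intro r R C hr hC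
  have hR : 0 < R := by
    have h1 : ((r / 2 : ℝ) : ℂ) ∈ ball (0 : ℂ) r := by
      simp only [mem_ball, dist_zero_right, Complex.norm_real, Real.norm_eq_abs]
      rw [abs_of_pos (by linarith)]; linarith
    have h2 := (hC 0).out ((hC 0).inn h1)
    simp only [mem_closedBall, dist_zero_right, Complex.norm_real, Real.norm_eq_abs] at h2
    rw [abs_of_pos (by linarith)] at h2
    linarith
  have hlow : ∀ n z, ‖z‖ / R ≤ gauge (C n) z := fun n z =>
    le_gauge_of_subset_closedBall (absorbent_nhds_zero (hC n).body.nhds) hR.le (hC n).out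
  have hup : ∀ n z, gauge (C n) z ≤ ‖z‖ / r := fun n z => by
    rw [le_div_iff₀ hr, mul_comm]
    exact mul_gauge_le_norm (hC n).inn
  have hlip : ∀ n, LipschitzWith (⟨r, hr.le⟩ : NNReal)⁻¹ (gauge (C n)) := fun n =>
    (hC n).body.conv.lipschitzWith_gauge (r := ⟨r, hr.le⟩) hr (hC n).inn
  have : CompactSpace (sphere (0 : ℂ) 1) := isCompact_iff_compactSpace.1 (isCompact_sphere _ _)
  let f : ℕ → BoundedContinuousFunction (sphere (0 : ℂ) 1) ℝ := fun n =>
    BoundedContinuousFunction.mkOfCompact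
      ⟨fun x => gauge (C n) (x : ℂ), (hlip n).continuous.comp continuous_subtype_val⟩
  have hf : ∀ n x, f n x = gauge (C n) (x : ℂ) := fun n x => rfl
  have hcpt : IsCompact (closure (range f)) := by
    apply BoundedContinuousFunction.arzela_ascoli (Icc 0 (1 / r)) isCompact_Icc
    · rintro g x ⟨n, rfl⟩
      rw [hf]
      have hx : ‖(x : ℂ)‖ = 1 := by simp
      refine ⟨gauge_nonneg _, ?_⟩
      have := hup n x
      rwa [hx] at this
    · apply UniformEquicontinuous.equicontinuous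
      apply LipschitzWith.uniformEquicontinuous _ ((⟨r, hr.le⟩ : NNReal)⁻¹)
      rintro ⟨g, n, rfl⟩
      exact LipschitzWith.of_dist_le_mul fun x y => (hlip n).dist_le_mul x y
  obtain ⟨g, -, σ, hσ, hg⟩ := hcpt.tendsto_subseq (x := f)
    (fun n => subset_closure (mem_range_self n))
  have hunif := BoundedContinuousFunction.tendsto_iff_tendstoUniformly.1 hg
  have hes : ∀ θ, e θ ∈ sphere (0 : ℂ) 1 := fun θ => by simp
  let G : ℂ → ℝ := fun z => ‖z‖ * g ⟨e (Complex.arg z), hes _⟩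
  have hG : ∀ z, Tendsto (fun n => gauge (C (σ n)) z) atTop (𝓝 (G z)) := by
    intro z
    have h1 := hunif.tendsto_at ⟨e (Complex.arg z), hes _⟩
    have h2 : (fun n => gauge (C (σ n)) z) =
        fun n => ‖z‖ * f (σ n) ⟨e (Complex.arg z), hes _⟩ := by
      ext n
      rw [hf, ← gauge_pol]
    rw [h2]
    exact h1.const_mul _
  have hGe : ∀ θ, G (e θ) = g ⟨e θ, hes θ⟩ := by
    intro θ
    exact tendsto_nhds_unique (hG (e θ)) (hunif.tendsto_at ⟨e θ, hes θ⟩)
  have h1 : ∀ z, ‖z‖ / R ≤ G z := fun z => ge_of_tendsto' (hG z) (fun n => hlow _ z)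
  have h2 : ∀ z, G z ≤ ‖z‖ / r := fun z => le_of_tendsto' (hG z) (fun n => hup _ z)
  have h3 : ∀ z w, G (z + w) ≤ G z + G w := fun z w =>
    le_of_tendsto_of_tendsto' (hG (z + w)) ((hG z).add (hG w)) (fun n =>
      gauge_add_le (hC _).body.conv (absorbent_nhds_zero (hC _).body.nhds) z w)
  have h4 : ∀ (s : ℝ) z, 0 ≤ s → G (s • z) = s * G z := fun s z hs =>
    tendsto_nhds_unique (hG (s • z)) (((hG z).const_mul s).congr (fun n =>
      (gauge_smul_of_nonneg hs z).symm))
  obtain ⟨hb, hgD⟩ := body_of hr hR h1 h2 h3 h4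
  refine ⟨{z | G z ≤ 1}, σ, hσ, hb, ?_⟩
  unfold BLim
  rw [Metric.tendstoUniformly_iff]
  intro ε hε
  have h5 := Metric.tendstoUniformly_iff.1 hunif (ε / (4 * R ^ 2)) (by positivity)
  filter_upwards [h5] with n hn θ
  have h6 := hn ⟨e θ, hes θ⟩
  simp only [Function.comp_apply] at h6
  rw [hf, ← hGe, ← hgD, Real.dist_eq] at h6
  rw [Real.dist_eq]
  have h7 : (1 / R) ≤ gauge {z | G z ≤ 1} (e θ) := by
    rw [hgD]; simpa using h1 (e θ)
  have h8 : (1 / R) / 2 ≤ gauge (C (σ n)) (e θ) := by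
    have := hlow (σ n) (e θ)
    rw [norm_e] at this
    have h9 : 0 < 1 / R := by positivity
    linarith
  have h9 := inv_close (by positivity : 0 < 1 / R) h7 h8
  have h10 : rad {z | G z ≤ 1} θ - rad (C (σ n)) θ =
      -((gauge (C (σ n)) (e θ))⁻¹ - (gauge {z | G z ≤ 1} (e θ))⁻¹) := by
    unfold rad; ring
  rw [h10, abs_neg]
  refine lt_of_le_of_lt h9 ?_
  calc 2 / (1 / R) ^ 2 * |gauge {z | G z ≤ 1} (e θ) - gauge (C (σ n)) (e θ)|
      ≤ 2 / (1 / R) ^ 2 * (ε / (4 * R ^ 2)) := by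
        apply mul_le_mul_of_nonneg_left h6.le (by positivity)
    _ = ε / 2 := by field_simp; ring
    _ < ε := by linarith

end Pool.XR2
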