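import Pool.Agent.H78.XR2.Gau

/-!
# XR2, row SXC: equality of X-rays passes to the limit
-/

set_option autoImplicit false

open MeasureTheory Set Filter Topology Metric
open scoped Real ENNReal

namespace Pool.XR2

open Pool.Agent.H45.XR

namespace Sxc78

open G78

/-- The set of parameters of the points of `C` on the line through `p` with direction `e φ`. -/
def L (C : Set ℂ) (φ : ℝ) (p : ℂ) : Set ℝ := {s : ℝ | p + s * e φ ∈ C}

theorem L_cont (φ : ℝ) (p : ℂ) : Continuous (fun s : ℝ => p + (s : ℂ) * e φ) := by fun_prop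

theorem L_closed {C : Set ℂ} (hC : IsClosed C) (φ : ℝ) (p : ℂ) : IsClosed (L C φ p) :=
  hC.preimage (L_cont φ p)

theorem L_convex {C : Set ℂ} (hC : Convex ℝ C) (φ : ℝ) (p : ℂ) : Convex ℝ (L C φ p) := by
  intro s hs t ht a b ha hb hab
  have h1 := hC hs ht ha hb hab
  have h2 : p + ((a • s + b • t : ℝ) : ℂ) * e φ =
      a • (p + (s : ℂ) * e φ) + b • (p + (t : ℂ) * e φ) := by
    have h3 : ((a : ℂ) + (b : ℂ)) = 1 := by exact_mod_cast hab
    simp only [smul_eq_mul, Complex.real_smul]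
    push_cast
    linear_combination (-p) * h3
  show p + ((a • s + b • t : ℝ) : ℂ) * e φ ∈ C
  rw [h2]; exact h1

theorem L_shift (C : Set ℂ) (φ : ℝ) {p q : ℂ} (h : tc φ p = tc φ q) :
    volume (L C φ p) = volume (L C φ q) := by
  have h1 := eq_add_of_tc_eq h
  have h2 : L C φ p = (fun s => s + (yc φ p - yc φ q)) ⁻¹' (L C φ q) := by
    ext s
    show p + (s : ℂ) * e φ ∈ C ↔ q + ((s + (yc φ p - yc φ q) : ℝ) : ℂ) * e φ ∈ C
    have h3 : p + (s : ℂ) * e φ = q + ((s + (yc φ p - yc φ q) : ℝ) : ℂ) * e φ := by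
      conv_lhs => rw [h1]
      push_cast; ring
    rw [h3]
  rw [h2, measure_preimage_add_right]

theorem L_bdd {C : Set ℂ} {R : ℝ} (hR : ∀ z ∈ C, ‖z‖ ≤ R) (φ : ℝ) (p : ℂ) :
    L C φ p ⊆ Icc (-(R + ‖p‖)) (R + ‖p‖) := by
  intro s hs
  have h1 := hR _ hs
  have h2 : ‖(s : ℂ) * e φ‖ = |s| := by
    rw [norm_mul, norm_e, mul_one, Complex.norm_real, Real.norm_eq_abs]
  have h3 : ‖(s : ℂ) * e φ‖ ≤ ‖p + (s : ℂ) * e φ‖ + ‖p‖ := by
    have := norm_sub_le (p + (s : ℂ) * e φ) p
    rwa [add_sub_cancel_left] at this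
  rw [h2] at h3
  have h4 : |s| ≤ R + ‖p‖ := by linarith
  exact ⟨(abs_le.1 h4).1, (abs_le.1 h4).2⟩

theorem L_null {D : Set ℂ} (hD : Body D) (φ : ℝ) {p : ℂ} {z : ℂ} (hz : z ∈ interior D)
    (h : tc φ z = tc φ p) : ∀ᵐ s : ℝ, p + (s : ℂ) * e φ ∈ D → p + (s : ℂ) * e φ ∈ interior D := by
  have h0 : volume (frontier (L D φ p)) = 0 := (L_convex hD.conv φ p).addHaar_frontier _
  have h1 : ∀ᵐ s : ℝ, s ∉ frontier (L D φ p) := measure_eq_zero_iff_ae_notMem.1 h0
  have hz1 := eq_add_of_tc_eq h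
  set c : ℝ := yc φ z - yc φ p with hc
  filter_upwards [h1] with s hs hsD
  have h2 : s ∈ interior (L D φ p) := by
    by_contra hn
    exact hs ⟨subset_closure hsD, hn⟩
  rw [mem_interior_iff_mem_nhds, Metric.mem_nhds_iff] at h2
  obtain ⟨ε, hε, hball⟩ := h2
  have hzD : p + (c : ℂ) * e φ ∈ interior D := by rw [← hz1]; exact hz
  rcases lt_trichotomy s c with hsc | hsc | hsc
  · have h3 : s - ε / 2 ∈ L D φ p := hball (by
      rw [mem_ball, Real.dist_eq, abs_lt]; constructor <;> linarith)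
    have h3' : p + ((s - ε / 2 : ℝ) : ℂ) * e φ ∈ D := h3
    have h4 := B3.mem_open p (e φ) (a := s - ε / 2) (b := s) (c := c) (by linarith) hsc
    exact hD.conv.openSegment_self_interior_subset_interior h3' hzD h4
  · rw [hsc]; exact hzD
  · have h3 : s + ε / 2 ∈ L D φ p := hball (by
      rw [mem_ball, Real.dist_eq, abs_lt]; constructor <;> linarith)
    have h3' : p + ((s + ε / 2 : ℝ) : ℂ) * e φ ∈ D := h3
    have h4 := B3.mem_open p (e φ) (a := c) (b := s) (c := s + ε / 2) hsc (by linarith)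
    exact hD.conv.openSegment_interior_self_subset_interior hzD h3' h4

theorem tcIe (φ : ℝ) : tc φ (Complex.I * e φ) = 1 := by
  simp only [tc, Complex.mul_re, Complex.mul_im, Complex.I_re, Complex.I_im, e_re, e_im]
  have := Real.sin_sq_add_cos_sq φ
  nlinarith

theorem ev_line {φ : ℕ → ℝ} {ψ : ℝ} (hφ : Tendsto φ atTop (𝓝 ψ))
    (p : ℂ) (s : ℝ) :
    Tendsto (fun n => p + (s : ℂ) * e (φ n)) atTop (𝓝 (p + (s : ℂ) * e ψ)) := by
  have h1 : Tendsto (fun n => e (φ n)) atTop (𝓝 (e ψ)) := (continuous_e.tendsto ψ).comp hφ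
  exact tendsto_const_nhds.add (tendsto_const_nhds.mul h1)

/-- Convergence of the X-rays at a level where (almost) all points of `D` are interior points. -/
theorem tend {C : ℕ → Set ℂ} {D : Set ℂ} {φ : ℕ → ℝ} {ψ : ℝ} (hC : ∀ n, Body (C n))
    (hD : Body D) (hB : BLim C D) (hφ : Tendsto φ atTop (𝓝 ψ)) (p : ℂ)
    (hp : ∀ᵐ s : ℝ, p + (s : ℂ) * e ψ ∈ D → p + (s : ℂ) * e ψ ∈ interior D) :
    Tendsto (fun n => volume (L (C n) (φ n) p)) atTop (𝓝 (volume (L D ψ p))) := by
  obtain ⟨R, hR, hRC⟩ := ev_bdd hC hD hB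
  apply tendsto_measure_of_ae_tendsto_indicator atTop
    (L_closed hD.cpt.isClosed ψ p).measurableSet
    (fun n => (L_closed (hC n).cpt.isClosed (φ n) p).measurableSet)
    (measurableSet_Icc (a := -(R + ‖p‖)) (b := R + ‖p‖))
  · rw [Real.volume_Icc]; exact ENNReal.ofReal_ne_top
  · filter_upwards [hRC] with n hn
    exact L_bdd hn (φ n) p
  · filter_upwards [hp] with s hs
    by_cases h : p + (s : ℂ) * e ψ ∈ D
    · filter_upwards [ev_mem hC hD hB (ev_line hφ p s) (hs h)] with n hn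
      exact ⟨fun _ => h, fun _ => show p + (s : ℂ) * e (φ n) ∈ C n from interior_subset hn⟩
    · filter_upwards [ev_notMem hC hD hB (ev_line hφ p s) h] with n hn
      exact ⟨fun h' => absurd h' hn, fun h' => absurd h' h⟩

/-- Continuity at the end levels. -/
theorem tend_end {D : Set ℂ} (hD : Body D) (ψ : ℝ) {p z : ℂ} (hz : z ∈ interior D) :
    Tendsto (fun n : ℕ => volume (L D ψ (((1 - 1 / ((n : ℝ) + 2) : ℝ) : ℂ) * p +
      ((1 / ((n : ℝ) + 2) : ℝ) : ℂ) * z))) atTop (𝓝 (volume (L D ψ p))) := by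
  obtain ⟨R, hR⟩ := hD.cpt.isBounded.exists_norm_le
  have hlam : Tendsto (fun n : ℕ => 1 / ((n : ℝ) + 2)) atTop (𝓝 0) := by
    have h1 : Tendsto (fun n : ℕ => (n : ℝ) + 2) atTop atTop :=
      tendsto_atTop_add_const_right _ _ tendsto_natCast_atTop_atTop
    exact (tendsto_const_nhds (x := (1 : ℝ))).div_atTop h1
  set l : ℕ → ℝ := fun n => 1 / ((n : ℝ) + 2) with hl
  have hl0 : ∀ n, 0 < l n := fun n => by simp only [hl]; positivity
  have hl1 : ∀ n, l n < 1 := fun n => by
    simp only [hl]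
    rw [div_lt_one (by positivity)]
    have : (0 : ℝ) ≤ n := Nat.cast_nonneg n
    linarith
  set P : ℕ → ℂ := fun n => ((1 - l n : ℝ) : ℂ) * p + (l n : ℂ) * z with hP
  have hPt : Tendsto P atTop (𝓝 p) := by
    have h1 : Tendsto (fun n => ((1 - l n : ℝ) : ℂ)) atTop (𝓝 ((1 - 0 : ℝ) : ℂ)) :=
      (Complex.continuous_ofReal.tendsto _).comp (tendsto_const_nhds.sub hlam)
    have h2 : Tendsto (fun n => (l n : ℂ)) atTop (𝓝 ((0 : ℝ) : ℂ)) :=
      (Complex.continuous_ofReal.tendsto _).comp hlam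
    have h3 := (h1.mul_const p).add (h2.mul_const z)
    simpa [hP] using h3
  have hPn : ∀ᶠ n in atTop, ‖P n‖ < ‖p‖ + 1 := hPt.norm.eventually_lt_const (by linarith)
  apply tendsto_measure_of_ae_tendsto_indicator atTop
    (L_closed hD.cpt.isClosed ψ p).measurableSet
    (fun n => (L_closed hD.cpt.isClosed ψ _).measurableSet)
    (measurableSet_Icc (a := -(R + (‖p‖ + 1))) (b := R + (‖p‖ + 1)))
  · rw [Real.volume_Icc]; exact ENNReal.ofReal_ne_top
  · filter_upwards [hPn] with n hn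
    exact (L_bdd hR ψ (P n)).trans (Icc_subset_Icc (by linarith) (by linarith))
  · have h0 : volume (frontier (L D ψ p)) = 0 := (L_convex hD.conv ψ p).addHaar_frontier _
    have h1 : ∀ᵐ s : ℝ, s ∉ frontier (L D ψ p) := measure_eq_zero_iff_ae_notMem.1 h0
    filter_upwards [h1] with s hs
    by_cases h : p + (s : ℂ) * e ψ ∈ D
    · have h2 : s ∈ interior (L D ψ p) := by
        by_contra hn
        exact hs ⟨subset_closure h, hn⟩
      have h3 : Tendsto (fun n => s / (1 - l n)) atTop (𝓝 s) := by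
        have h4 : Tendsto (fun n => 1 - l n) atTop (𝓝 (1 - 0)) := tendsto_const_nhds.sub hlam
        have h5 : Tendsto (fun n => s / (1 - l n)) atTop (𝓝 (s / (1 - 0))) :=
          tendsto_const_nhds.div h4 (by norm_num)
        simpa using h5
      have h4 : ∀ᶠ n in atTop, s / (1 - l n) ∈ L D ψ p :=
        (h3.eventually (isOpen_interior.mem_nhds h2)).mono (fun n hn => interior_subset hn)
      filter_upwards [h4] with n hn
      refine ⟨fun _ => h, fun _ => ?_⟩
      have h5 := hD.conv hn (interior_subset hz) (by linarith [hl1 n] : (0 : ℝ) ≤ 1 - l n)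
        (hl0 n).le (by ring)
      have h6 : (((1 - l n : ℝ) : ℂ) * p + (l n : ℂ) * z) + (s : ℂ) * e ψ =
          (1 - l n) • (p + ((s / (1 - l n) : ℝ) : ℂ) * e ψ) + l n • z := by
        have h7 : ((1 - l n : ℝ) : ℂ) ≠ 0 := by
          have := hl1 n
          exact_mod_cast (by linarith : (1 - l n : ℝ) ≠ 0)
        simp only [Complex.real_smul]
        have h8 : ((s / (1 - l n) : ℝ) : ℂ) = (s : ℂ) / ((1 - l n : ℝ) : ℂ) := by push_cast; ring
        rw [h8]
        field_simp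
        ring
      show (((1 - l n : ℝ) : ℂ) * p + (l n : ℂ) * z) + (s : ℂ) * e ψ ∈ D
      rw [h6]; exact h5
    · have h2 : Tendsto (fun n => P n + (s : ℂ) * e ψ) atTop (𝓝 (p + (s : ℂ) * e ψ)) :=
        hPt.add_const _
      have h3 := h2.eventually (hD.cpt.isClosed.isOpen_compl.mem_nhds h)
      filter_upwards [h3] with n hn
      exact ⟨fun h' => absurd h' hn, fun h' => absurd h' h⟩

end Sxc78

open Sxc78 G78 in
theorem t_sxc : SXCStmt := by
  intro C C' D D' φ ψ hC hC' hD hD' hB hB' hφ hX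
  have hXL : ∀ n p, volume (L (C n) (φ n) p) = volume (L (C' n) (φ n) p) := fun n p => hX n p
  -- interior levels are the same
  have key2 : ∀ {C C' : ℕ → Set ℂ} {D D' : Set ℂ}, (∀ n, Body (C n)) → (∀ n, Body (C' n)) →
      Body D → Body D' → BLim C D → BLim C' D' →
      (∀ n p, volume (L (C n) (φ n) p) = volume (L (C' n) (φ n) p)) →
      ∀ z ∈ interior D, ∃ z' ∈ interior D', tc ψ z' = tc ψ z := by
    intro C C' D D' hC hC' hD hD' hB hB' hXL z hz
    by_contra hc
    push Not at hc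
    obtain ⟨δ, hδ, -, hpush⟩ := B3.push (d := Complex.I * e ψ) hz
    have key : ∀ s : ℝ, |s| ≤ δ → ∃ w ∈ D', tc ψ w = tc ψ z + s := by
      intro s hs
      by_contra hn
      push Not at hn
      have h1 := hpush s hs
      set w : ℂ := z + s * (Complex.I * e ψ) with hw
      have htw : tc ψ w = tc ψ z + s := by
        rw [hw, tc_add, tc_mul, tcIe, mul_one]
      have h2 := tend hC hD hB hφ w (L_null hD ψ h1 rfl)
      have h3 : ∀ s' : ℝ, w + (s' : ℂ) * e ψ ∉ D' := by
        intro s' hs'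
        apply hn _ hs'
        rw [tc_add, tc_mul, tc_e_self, mul_zero, add_zero, htw]
      have h4 := tend hC' hD' hB' hφ w (Eventually.of_forall fun s' hs' => absurd hs' (h3 s'))
      have h5 : L D' ψ w = ∅ := by
        ext s'; simp only [mem_empty_iff_false, iff_false]; exact h3 s'
      rw [h5, measure_empty] at h4
      have h6 := tendsto_nhds_unique (h2.congr (fun n => hXL n w)) h4
      exact absurd h6 (B3.xray_pos h1).ne'
    rcases side_of_miss hD' hc with h | h
    · obtain ⟨w, hw, hw'⟩ := key δ (abs_of_pos hδ).le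
      have := h w hw
      linarith
    · obtain ⟨w, hw, hw'⟩ := key (-δ) (by rw [abs_neg]; exact (abs_of_pos hδ).le)
      have := h w hw
      linarith
  have k12 := key2 hC hC' hD hD' hB hB' hXL
  have k21 := key2 hC' hC hD' hD hB' hB (fun n p => (hXL n p).symm)
  have key1 : ∀ p, (∃ z ∈ interior D, tc ψ z = tc ψ p) →
      volume (L D ψ p) = volume (L D' ψ p) := by
    rintro p ⟨z, hz, hzp⟩
    obtain ⟨z', hz', hzz⟩ := k12 z hz
    have h1 := tend hC hD hB hφ p (L_null hD ψ hz hzp)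
    have h2 := tend hC' hD' hB' hφ p (L_null hD' ψ hz' (hzz.trans hzp))
    exact tendsto_nhds_unique (h1.congr (fun n => hXL n p)) h2
  -- touching levels
  have key3 : ∀ {D D' : Set ℂ}, Body D → Body D' →
      (∀ z ∈ interior D, ∃ z' ∈ interior D', tc ψ z' = tc ψ z) →
      ∀ p ∈ D, ∃ p' ∈ D', tc ψ p' = tc ψ p := by
    intro D D' hD hD' hk p hp
    have h1 : IsClosed (tc ψ '' D') := (hD'.cpt.image (continuous_tc ψ)).isClosed
    have h2 : p ∈ closure (interior D) := by
      rw [hD.conv.closure_interior_eq_closure_of_nonempty_interior ⟨0, hD.zero⟩]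
      exact subset_closure hp
    have h3 : tc ψ p ∈ closure (tc ψ '' interior D) :=
      image_closure_subset_closure_image (continuous_tc ψ) ⟨p, h2, rfl⟩
    have h4 : tc ψ '' interior D ⊆ tc ψ '' D' := by
      rintro _ ⟨z, hz, rfl⟩
      obtain ⟨z', hz', h⟩ := hk z hz
      exact ⟨z', interior_subset hz', h⟩
    have h5 := (closure_mono h4) h3
    rw [h1.closure_eq] at h5
    obtain ⟨p', hp', h⟩ := h5
    exact ⟨p', hp', h⟩
  have m12 := key3 hD hD' k12
  have m21 := key3 hD' hD k21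
  intro p
  show volume (L D ψ p) = volume (L D' ψ p)
  by_cases h : ∃ q ∈ D, tc ψ q = tc ψ p
  · obtain ⟨q, hq, hqp⟩ := h
    obtain ⟨q', hq', hqq⟩ := m12 q hq
    obtain ⟨z', hz', hzz⟩ := k12 0 hD.zero
    have h1 := tend_end hD ψ (p := q) hD.zero
    have h2 := tend_end hD' ψ (p := q') hz'
    rw [L_shift D ψ hqp.symm, L_shift D' ψ (hqq.trans hqp).symm]
    refine tendsto_nhds_unique (h1.congr (fun n => ?_)) h2
    have hn : (0 : ℝ) < 1 / ((n : ℝ) + 2) := by positivity
    have hn1 : 1 / ((n : ℝ) + 2) < 1 := by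
      rw [div_lt_one (by positivity)]
      have : (0 : ℝ) ≤ n := Nat.cast_nonneg n
      linarith
    set l : ℝ := 1 / ((n : ℝ) + 2) with hl
    have ht : tc ψ (((1 - l : ℝ) : ℂ) * q + (l : ℂ) * 0) =
        tc ψ (((1 - l : ℝ) : ℂ) * q' + (l : ℂ) * z') := by
      rw [tc_add, tc_mul, tc_mul, tc_add, tc_mul, tc_mul, hqq, hzz]
    rw [← L_shift D' ψ ht]
    apply key1
    refine ⟨((1 - l : ℝ) : ℂ) * q + (l : ℂ) * 0, ?_, rfl⟩
    have h3 := hD.conv.combo_self_interior_mem_interior hq hD.zero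
      (by linarith : (0 : ℝ) ≤ 1 - l) hn (by ring)
    simpa [Complex.real_smul] using h3
  · have h1 : L D ψ p = ∅ := by
      ext s
      simp only [mem_empty_iff_false, iff_false]
      intro hs
      exact h ⟨_, hs, by rw [tc_add, tc_mul, tc_e_self, mul_zero, add_zero]⟩
    have h2 : L D' ψ p = ∅ := by
      ext s
      simp only [mem_empty_iff_false, iff_false]
      intro hs
      obtain ⟨q, hq, hqp⟩ := m21 _ hs
      exact h ⟨q, hq, by rw [hqp, tc_add, tc_mul, tc_e_self, mul_zero, add_zero]⟩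
    rw [h1, h2]

end Pool.XR2
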