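import Pool.Agent.H52.XR2.S1

/-!
# XR2: gauges and convergence of planar bodies
-/

set_option autoImplicit false

open MeasureTheory Set Filter Topology Metric
open scoped Real ENNReal

namespace Pool.XR2.G78

open Pool.XR2 Pool.Agent.H45.XR

theorem gauge_pol (C : Set ℂ) (z : ℂ) : gauge C z = ‖z‖ * gauge C (e (Complex.arg z)) := by
  have h : ((‖z‖ : ℝ) : ℂ) * e (Complex.arg z) = z := by
    unfold e
    exact Complex.norm_mul_exp_arg_mul_I z
  conv_lhs => rw [← h]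
  exact gauge_mul_e C _ (norm_nonneg z)

theorem gauge_inv (C : Set ℂ) (θ : ℝ) : gauge C (e θ) = (rad C θ)⁻¹ := by
  unfold rad; rw [inv_inv]

theorem gauge_rad (C : Set ℂ) (z : ℂ) : gauge C z = ‖z‖ * (rad C (Complex.arg z))⁻¹ := by
  rw [gauge_pol, gauge_inv]

theorem mem_iff {C : Set ℂ} (hC : Body C) (z : ℂ) : z ∈ C ↔ gauge C z ≤ 1 := by
  rw [gauge_le_one_iff_mem_closure hC.conv hC.nhds, hC.cpt.isClosed.closure_eq]

theorem mem_int_iff {C : Set ℂ} (hC : Body C) (z : ℂ) : z ∈ interior C ↔ gauge C z < 1 :=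
  (gauge_lt_one_iff_mem_interior hC.conv hC.nhds).symm

theorem inv_close {a b r : ℝ} (hr : 0 < r) (ha : r ≤ a) (hb : r / 2 ≤ b) :
    |b⁻¹ - a⁻¹| ≤ 2 / r ^ 2 * |a - b| := by
  have ha0 : 0 < a := by linarith
  have hb0 : 0 < b := by linarith
  have h1 : b⁻¹ - a⁻¹ = (a - b) / (b * a) := by
    field_simp
  rw [h1, abs_div, abs_of_pos (mul_pos hb0 ha0), div_le_iff₀ (mul_pos hb0 ha0)]
  have h2 : r / 2 * r ≤ b * a := mul_le_mul hb ha hr.le hb0.le
  have h3 : 2 / r ^ 2 * |a - b| * (b * a) = |a - b| * (2 / r ^ 2 * (b * a)) := by ring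
  rw [h3]
  have h4 : 1 ≤ 2 / r ^ 2 * (b * a) := by
    calc (1 : ℝ) = 2 / r ^ 2 * (r / 2 * r) := by field_simp
      _ ≤ _ := mul_le_mul_of_nonneg_left h2 (by positivity)
  nlinarith [abs_nonneg (a - b)]

theorem gauge_unif {C : ℕ → Set ℂ} {D : Set ℂ} (hD : Body D) (h : BLim C D) :
    ∀ ε > 0, ∀ᶠ n in atTop, ∀ z : ℂ, |gauge (C n) z - gauge D z| ≤ ε * ‖z‖ := by
  intro ε hε
  obtain ⟨r, hr, hrD⟩ := A2.rad_ge hD
  have h1 := Metric.tendstoUniformly_iff.1 h (min (r / 2) (ε * (r ^ 2 / 2))) (by positivity)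
  filter_upwards [h1] with n hn z
  rw [gauge_rad, gauge_rad, ← mul_sub, abs_mul, abs_norm, mul_comm]
  apply mul_le_mul_of_nonneg_right _ (norm_nonneg z)
  have h2 := hn (Complex.arg z)
  rw [Real.dist_eq] at h2
  have h3 := lt_of_lt_of_le h2 (min_le_left _ _)
  have h4 := lt_of_lt_of_le h2 (min_le_right _ _)
  have h5 := hrD (Complex.arg z)
  have h6 : r / 2 ≤ rad (C n) (Complex.arg z) := by
    have := (abs_lt.1 h3).2
    linarith
  refine (inv_close hr h5 h6).trans ?_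
  calc 2 / r ^ 2 * |rad D (Complex.arg z) - rad (C n) (Complex.arg z)|
      ≤ 2 / r ^ 2 * (ε * (r ^ 2 / 2)) := mul_le_mul_of_nonneg_left h4.le (by positivity)
    _ = ε := by field_simp

theorem gauge_tendsto {C : ℕ → Set ℂ} {D : Set ℂ} (hD : Body D) (h : BLim C D) {z : ℕ → ℂ}
    {w : ℂ} (hz : Tendsto z atTop (𝓝 w)) :
    Tendsto (fun n => gauge (C n) (z n)) atTop (𝓝 (gauge D w)) := by
  have h1 : Tendsto (fun n => gauge D (z n)) atTop (𝓝 (gauge D w)) :=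
    ((continuous_gauge hD.conv hD.nhds).tendsto w).comp hz
  rw [Metric.tendsto_atTop] at h1 ⊢
  intro ε hε
  obtain ⟨N1, hN1⟩ := h1 (ε / 2) (by positivity)
  have hb : ∀ᶠ n in atTop, ‖z n‖ < ‖w‖ + 1 :=
    (hz.norm).eventually_lt_const (by linarith)
  have h2 := gauge_unif hD h (ε / (2 * (‖w‖ + 1))) (by positivity)
  obtain ⟨N2, hN2⟩ := eventually_atTop.1 (hb.and h2)
  refine ⟨max N1 N2, fun n hn => ?_⟩
  have h3 := hN1 n (le_trans (le_max_left _ _) hn)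
  obtain ⟨h4, h5⟩ := hN2 n (le_trans (le_max_right _ _) hn)
  have h6 := h5 (z n)
  rw [Real.dist_eq] at h3 ⊢
  have h7 : ε / (2 * (‖w‖ + 1)) * ‖z n‖ < ε / 2 := by
    have h8 : ε / (2 * (‖w‖ + 1)) * ‖z n‖ < ε / (2 * (‖w‖ + 1)) * (‖w‖ + 1) := by
      apply mul_lt_mul_of_pos_left h4 (by positivity)
    have h9 : ε / (2 * (‖w‖ + 1)) * (‖w‖ + 1) = ε / 2 := by
      field_simp
    linarith
  calc |gauge (C n) (z n) - gauge D w|
      ≤ |gauge (C n) (z n) - gauge D (z n)| + |gauge D (z n) - gauge D w| := abs_sub_le _ _ _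
    _ < ε / 2 + ε / 2 := by linarith
    _ = ε := by ring

theorem ev_mem {C : ℕ → Set ℂ} {D : Set ℂ} (hC : ∀ n, Body (C n)) (hD : Body D) (h : BLim C D)
    {z : ℕ → ℂ} {w : ℂ} (hz : Tendsto z atTop (𝓝 w)) (hw : w ∈ interior D) :
    ∀ᶠ n in atTop, z n ∈ interior (C n) := by
  have h1 := (gauge_tendsto hD h hz).eventually_lt_const ((mem_int_iff hD w).1 hw)
  filter_upwards [h1] with n hn
  exact (mem_int_iff (hC n) _).2 hn

theorem ev_notMem {C : ℕ → Set ℂ} {D : Set ℂ} (hC : ∀ n, Body (C n)) (hD : Body D)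
    (h : BLim C D) {z : ℕ → ℂ} {w : ℂ} (hz : Tendsto z atTop (𝓝 w)) (hw : w ∉ D) :
    ∀ᶠ n in atTop, z n ∉ C n := by
  have h0 : 1 < gauge D w := by
    by_contra hc
    exact hw ((mem_iff hD w).2 (not_lt.1 hc))
  have h1 := (gauge_tendsto hD h hz).eventually_const_lt h0
  filter_upwards [h1] with n hn hm
  exact absurd ((mem_iff (hC n) _).1 hm) (not_le.2 hn)

theorem ev_bdd {C : ℕ → Set ℂ} {D : Set ℂ} (hC : ∀ n, Body (C n)) (hD : Body D)
    (h : BLim C D) : ∃ R : ℝ, 0 < R ∧ ∀ᶠ n in atTop, ∀ z ∈ C n, ‖z‖ ≤ R := by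
  obtain ⟨R, hR, hRD⟩ := rad_le hD
  refine ⟨R + 1, by linarith, ?_⟩
  have h1 := Metric.tendstoUniformly_iff.1 h 1 one_pos
  filter_upwards [h1] with n hn z hz
  have h2 := hn (Complex.arg z)
  rw [Real.dist_eq] at h2
  have h3 := (abs_lt.1 h2).1
  have h4 : ‖z‖ ≤ rad (C n) (Complex.arg z) := by
    apply (mem_iff_le_rad (hC n) (Complex.arg z) (norm_nonneg z)).1
    have h : ((‖z‖ : ℝ) : ℂ) * e (Complex.arg z) = z := by
      unfold e
      exact Complex.norm_mul_exp_arg_mul_I z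
    rw [h]; exact hz
  have := hRD (Complex.arg z)
  linarith

end Pool.XR2.G78
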